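import Pool.Agent.U645.VS.Stm

/-!
Project VS, package F: for `v ≡ 5 (mod 6)` there are triples of `v` points such that one pair is in
three triples and every other pair is in exactly one.

Points: `(x, i)`, `x ∈ ℤ/n`, `i ∈ ℤ/3` (`n` odd, `v = 3 n + 2`), and two points `c : Bool`.
Triples: `{false, true, (0, i)}`, `{(0,0),(0,1),(0,2)}`, `{s x, (x, i), (-x, i + 1)}` for `x ≠ 0`, where
`s (-x) ≠ s x`, and `{(x, i), (y, i), (z, i + 1)}` for `x ≠ y`, `x + y + 2 z = 0`.
-/

set_option autoImplicit false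

open Finset

namespace Pool.Agent.U337.VS

open Pool.Agent.U645.VS

section

variable {n : ℕ} (s : ZMod n → Bool)

/-- the triples of the first kind -/
def U (p q r : ZMod n × ZMod 3) : Prop :=
  (p.1 = 0 ∧ q.1 = 0 ∧ r.1 = 0 ∧ p.2 ≠ q.2 ∧ q.2 ≠ r.2 ∧ p.2 ≠ r.2) ∨
    (p.2 = q.2 ∧ r.2 = p.2 + 1 ∧ p.1 ≠ q.1 ∧ p.1 + q.1 + 2 * r.1 = 0) ∨
    (p.2 = r.2 ∧ q.2 = p.2 + 1 ∧ p.1 ≠ r.1 ∧ p.1 + r.1 + 2 * q.1 = 0) ∨
    (q.2 = r.2 ∧ p.2 = q.2 + 1 ∧ q.1 ≠ r.1 ∧ q.1 + r.1 + 2 * p.1 = 0)

/-- the pairs which form a triple with the point `c` -/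
def V (c : Bool) (p q : ZMod n × ZMod 3) : Prop :=
  p.1 ≠ 0 ∧ q.1 = -p.1 ∧ ((q.2 = p.2 + 1 ∧ s p.1 = c) ∨ (p.2 = q.2 + 1 ∧ s q.1 = c))

/-- the triples -/
def T : (ZMod n × ZMod 3) ⊕ Bool → (ZMod n × ZMod 3) ⊕ Bool → (ZMod n × ZMod 3) ⊕ Bool → Prop
  | .inl p, .inl q, .inl r => U p q r
  | .inl p, .inl q, .inr c => V s c p q
  | .inl p, .inr c, .inl q => V s c p q
  | .inr c, .inl p, .inl q => V s c p q
  | .inl p, .inr c, .inr d => c ≠ d ∧ p.1 = 0
  | .inr c, .inl p, .inr d => c ≠ d ∧ p.1 = 0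
  | .inr c, .inr d, .inl p => c ≠ d ∧ p.1 = 0
  | .inr _, .inr _, .inr _ => False

lemma U_swap {p q r : ZMod n × ZMod 3} (h : U p q r) : U q p r := by
  rcases h with ⟨h1, h2, h3, h4, h5, h6⟩ | ⟨h1, h2, h3, h4⟩ | ⟨h1, h2, h3, h4⟩ | ⟨h1, h2, h3, h4⟩
  · exact Or.inl ⟨h2, h1, h3, h4.symm, h6, h5⟩
  · exact Or.inr (Or.inl ⟨h1.symm, by rw [h2, h1], h3.symm, by rw [add_comm q.1]; exact h4⟩)
  · exact Or.inr (Or.inr (Or.inr ⟨h1, h2, h3, h4⟩))
  · exact Or.inr (Or.inr (Or.inl ⟨h1, h2, h3, h4⟩))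

lemma U_swap' {p q r : ZMod n × ZMod 3} (h : U p q r) : U p r q := by
  rcases h with ⟨h1, h2, h3, h4, h5, h6⟩ | ⟨h1, h2, h3, h4⟩ | ⟨h1, h2, h3, h4⟩ | ⟨h1, h2, h3, h4⟩
  · exact Or.inl ⟨h1, h3, h2, h6, h5.symm, h4⟩
  · exact Or.inr (Or.inr (Or.inl ⟨h1, h2, h3, h4⟩))
  · exact Or.inr (Or.inl ⟨h1, h2, h3, h4⟩)
  · exact Or.inr (Or.inr (Or.inr ⟨h1.symm, by rw [h2, h1], h3.symm, by rw [add_comm r.1]; exact h4⟩))

lemma V_swap {c : Bool} {p q : ZMod n × ZMod 3} (h : V s c p q) : V s c q p := by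
  obtain ⟨h1, h2, h3⟩ := h
  refine ⟨by rw [h2]; exact neg_ne_zero.2 h1, by rw [h2, neg_neg], ?_⟩
  tauto

lemma T_swap {x y z : (ZMod n × ZMod 3) ⊕ Bool} (h : T s x y z) : T s y x z := by
  rcases x with p | c <;> rcases y with q | d <;> rcases z with r | e
  · exact U_swap h
  · exact V_swap s h
  · exact h
  · exact h
  · exact h
  · exact h
  · exact ⟨h.1.symm, h.2⟩
  · exact h

lemma T_swap' {x y z : (ZMod n × ZMod 3) ⊕ Bool} (h : T s x y z) : T s x z y := by
  rcases x with p | c <;> rcases y with q | d <;> rcases z with r | e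
  · exact U_swap' h
  · exact h
  · exact h
  · exact ⟨h.1.symm, h.2⟩
  · exact V_swap s h
  · exact h
  · exact h
  · exact h

lemma T_self (x y : (ZMod n × ZMod 3) ⊕ Bool) (hs : ∀ x : ZMod n, x ≠ 0 → -x ≠ x) : ¬ T s x x y := by
  rcases x with p | c <;> rcases y with q | d
  · rintro (⟨-, -, -, h, -, -⟩ | ⟨-, -, h, -⟩ | ⟨h, h', -, -⟩ | ⟨h, h', -, -⟩)
    · exact h rfl
    · exact h rfl
    · exact absurd h' (by simp)
    · exact absurd h' (by simp)
  · rintro ⟨h1, h2, -⟩
    exact hs _ h1 h2.symm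
  · rintro ⟨h1, -⟩
    exact h1 rfl
  · exact id

lemma i1 (i : ZMod 3) : i ≠ i + 1 := by revert i; decide
lemma i2 (i : ZMod 3) : i ≠ i + 1 + 1 := by revert i; decide
lemma i3 (i k : ZMod 3) : i ≠ i + 1 → i + 1 ≠ k → i ≠ k → k = i + 1 + 1 := by revert i k; decide
lemma i4 (i k : ZMod 3) : i = k + 1 ↔ k = i + 1 + 1 := by revert i k; decide
lemma i5 (i j : ZMod 3) : j = i ∨ j = i + 1 ∨ i = j + 1 := by revert i j; decide
lemma i6 (i : ZMod 3) : i + 1 ≠ i + 1 + 1 := by revert i; decide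

/-- the third point: two points on one level -/
lemma third_a (h : ZMod n) (hh : 2 * h = 1) (x y : ZMod n) (i : ZMod 3) (hxy : x ≠ y) :
    ∀ z, T s (.inl (x, i)) (.inl (y, i)) z ↔ z = .inl (-(x + y) * h, i + 1) := by
  rintro (⟨t, k⟩ | c)
  · constructor
    · rintro (⟨-, -, -, h1, -, -⟩ | ⟨-, h1, -, h2⟩ | ⟨-, h1, -, -⟩ | ⟨-, h1, -, -⟩)
      · exact absurd rfl h1
      · simp only at h1 h2
        rw [h1]
        congr 2
        linear_combination (h : ZMod n) * h2 - t * hh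
      · exact absurd h1 (i1 i)
      · exact absurd h1 (i1 i)
    · intro h1
      rw [Sum.inl.injEq, Prod.mk.injEq] at h1
      obtain ⟨rfl, rfl⟩ := h1
      refine Or.inr (Or.inl ⟨rfl, rfl, hxy, ?_⟩)
      simp only
      linear_combination -(x + y) * hh
  · constructor
    · rintro ⟨-, -, ⟨h1, -⟩ | ⟨h1, -⟩⟩
      · exact absurd h1 (i1 i)
      · exact absurd h1 (i1 i)
    · intro h1
      exact absurd h1 (by simp)

/-- the third point: two points on neighbouring levels -/
lemma third_b (h : ZMod n) (hh : 2 * h = 1) (x y : ZMod n) (i : ZMod 3) :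
    ∃ z0, ∀ z, T s (.inl (x, i)) (.inl (y, i + 1)) z ↔ z = z0 := by
  by_cases hy : y = -x
  · by_cases hx : x = 0
    · refine ⟨.inl (0, i + 1 + 1), ?_⟩
      rintro (⟨t, k⟩ | c)
      · constructor
        · rintro (⟨-, -, h3, h4, h5, h6⟩ | ⟨h1, -, -, -⟩ | ⟨-, -, h1, h2⟩ | ⟨-, h1, -, -⟩)
          · simp only at h3 h4 h5 h6
            rw [h3, i3 i k h4 h5 h6]
          · exact absurd h1 (i1 i)
          · exfalso
            apply h1
            simp only at h2 ⊢
            rw [hy, hx] at h2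
            rw [hx]
            linear_combination -h2
          · exact absurd h1 (i2 i)
        · intro h1
          rw [Sum.inl.injEq, Prod.mk.injEq] at h1
          obtain ⟨rfl, rfl⟩ := h1
          exact Or.inl ⟨hx, by simp [hy, hx], rfl, i1 i, i6 i, i2 i⟩
      · constructor
        · rintro ⟨h1, -⟩
          exact absurd hx h1
        · intro h1
          exact absurd h1 (by simp)
    · refine ⟨.inr (s x), ?_⟩
      rintro (⟨t, k⟩ | c)
      · constructor
        · rintro (⟨h1, -⟩ | ⟨h1, -, -, -⟩ | ⟨-, -, h1, h2⟩ | ⟨-, h1, -, -⟩)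
          · exact absurd h1 hx
          · exact absurd h1 (i1 i)
          · exfalso
            apply h1
            simp only at h2 ⊢
            rw [hy] at h2
            linear_combination -h2
          · exact absurd h1 (i2 i)
        · intro h1
          exact absurd h1 (by simp)
      · constructor
        · rintro ⟨-, -, ⟨-, h1⟩ | ⟨h1, -⟩⟩
          · simp only at h1
            rw [h1]
          · exact absurd h1 (i2 i)
        · intro h1
          rw [Sum.inr.injEq] at h1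
          exact ⟨hx, hy, Or.inl ⟨rfl, h1.symm⟩⟩
  · refine ⟨.inl (-x - 2 * y, i), ?_⟩
    rintro (⟨t, k⟩ | c)
    · constructor
      · rintro (⟨h1, h2, -⟩ | ⟨h1, -, -, -⟩ | ⟨h3, -, h1, h2⟩ | ⟨-, h1, -, -⟩)
        · exfalso
          apply hy
          simp only at h1 h2
          rw [h1, h2, neg_zero]
        · exact absurd h1 (i1 i)
        · simp only at h2 h3
          rw [← h3]
          congr 2
          linear_combination h2
        · exact absurd h1 (i2 i)
      · intro h1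
        rw [Sum.inl.injEq, Prod.mk.injEq] at h1
        obtain ⟨rfl, rfl⟩ := h1
        refine Or.inr (Or.inr (Or.inl ⟨rfl, rfl, ?_, ?_⟩))
        · intro h1
          apply hy
          simp only at h1
          linear_combination (h : ZMod n) * h1 - (x + y) * hh
        · simp only
          ring
    · constructor
      · rintro ⟨-, h1, -⟩
        exact absurd h1 hy
      · intro h1
        exact absurd h1 (by simp)

/-- the third point: a point `c` and a point of the levels -/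
lemma third_c (hs : ∀ x : ZMod n, x ≠ 0 → s (-x) = !(s x)) (p : ZMod n × ZMod 3) (c : Bool) :
    ∃ z0, ∀ z, T s (.inl p) (.inr c) z ↔ z = z0 := by
  obtain ⟨x, i⟩ := p
  by_cases hx : x = 0
  · refine ⟨.inr (!c), ?_⟩
    rintro (⟨t, k⟩ | d)
    · constructor
      · rintro ⟨h1, -⟩
        exact absurd hx h1
      · intro h1
        exact absurd h1 (by simp)
    · constructor
      · rintro ⟨h1, -⟩
        rw [Sum.inr.injEq]
        cases c <;> cases d <;> first | rfl | exact absurd rfl h1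
      · intro h1
        rw [Sum.inr.injEq] at h1
        refine ⟨?_, hx⟩
        rw [h1]
        cases c <;> decide
  · by_cases hc : s x = c
    · refine ⟨.inl (-x, i + 1), ?_⟩
      rintro (⟨t, k⟩ | d)
      · constructor
        · rintro ⟨-, h1, ⟨h2, -⟩ | ⟨-, h3⟩⟩
          · simp only at h1 h2
            rw [h1, h2]
          · exfalso
            simp only at h1 h3
            rw [h1, hs x hx, ← hc] at h3
            revert h3
            cases s x <;> decide
        · intro h1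
          rw [Sum.inl.injEq, Prod.mk.injEq] at h1
          obtain ⟨rfl, rfl⟩ := h1
          exact ⟨hx, rfl, Or.inl ⟨rfl, hc⟩⟩
      · constructor
        · rintro ⟨-, h1⟩
          exact absurd h1 hx
        · intro h1
          exact absurd h1 (by simp)
    · refine ⟨.inl (-x, i + 1 + 1), ?_⟩
      rintro (⟨t, k⟩ | d)
      · constructor
        · rintro ⟨-, h1, ⟨-, h2⟩ | ⟨h2, h3⟩⟩
          · exact absurd h2 hc
          · simp only at h1 h2
            rw [h1, (i4 i k).1 h2]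
        · intro h1
          rw [Sum.inl.injEq, Prod.mk.injEq] at h1
          obtain ⟨rfl, rfl⟩ := h1
          refine ⟨hx, rfl, Or.inr ⟨(i4 i _).2 rfl, ?_⟩⟩
          simp only
          rw [hs x hx]
          revert hc
          cases s x <;> cases c <;> decide
      · constructor
        · rintro ⟨-, h1⟩
          exact absurd h1 hx
        · intro h1
          exact absurd h1 (by simp)

/-- every pair, except for the two points `c`, is in one triple -/
lemma third (h : ZMod n) (hh : 2 * h = 1) (hs : ∀ x : ZMod n, x ≠ 0 → s (-x) = !(s x))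
    (x y : (ZMod n × ZMod 3) ⊕ Bool) (hxy : x ≠ y)
    (hne : ¬ ((∃ c, x = .inr c) ∧ ∃ c, y = .inr c)) :
    ∃ z0, ∀ z, T s x y z ↔ z = z0 := by
  rcases x with ⟨x, i⟩ | c <;> rcases y with ⟨y, j⟩ | d
  · rcases i5 i j with rfl | rfl | rfl
    · exact ⟨_, third_a s h hh x y j fun e => hxy (by rw [e])⟩
    · exact third_b s h hh x y i
    · obtain ⟨z0, h0⟩ := third_b s h hh y x j
      exact ⟨z0, fun z => ⟨fun h1 => (h0 z).1 (T_swap s h1), fun h1 => T_swap s ((h0 z).2 h1)⟩⟩
  · exact third_c s hs _ _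
  · obtain ⟨z0, h0⟩ := third_c s hs (y, j) c
    exact ⟨z0, fun z => ⟨fun h1 => (h0 z).1 (T_swap s h1), fun h1 => T_swap s ((h0 z).2 h1)⟩⟩
  · exact absurd ⟨⟨c, rfl⟩, ⟨d, rfl⟩⟩ hne

end

/-- the multiplicities -/
noncomputable def W {n : ℕ} (s : ZMod n → Bool) (x y z : (ZMod n × ZMod 3) ⊕ Bool) : ℕ := by
  classical exact if T s x y z then 1 else 0

lemma W_sum_one {n : ℕ} [NeZero n] (s : ZMod n → Bool) (h : ZMod n) (hh : 2 * h = 1)
    (hs : ∀ x : ZMod n, x ≠ 0 → s (-x) = !(s x))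
    (x y : (ZMod n × ZMod 3) ⊕ Bool) (hxy : x ≠ y)
    (hne : ¬ ((∃ c, x = .inr c) ∧ ∃ c, y = .inr c)) : ∑ z, W s x y z = 1 := by
  classical
  obtain ⟨z0, h0⟩ := third s h hh hs x y hxy hne
  have : ∀ z, W s x y z = if z = z0 then 1 else 0 := by
    intro z
    unfold W
    simp only [h0]
  rw [Finset.sum_congr rfl fun z _ => this z, Finset.sum_ite_eq' Finset.univ z0]
  simp

lemma W_sum_three {n : ℕ} [NeZero n] (s : ZMod n → Bool) (c d : Bool) (hcd : c ≠ d) :
    ∑ z, W s (.inr c) (.inr d) z = 3 := by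
  classical
  rw [Fintype.sum_sum_type, Fintype.sum_prod_type]
  have h1 : ∀ (x : ZMod n) (i : ZMod 3), W s (.inr c) (.inr d) (.inl (x, i)) = if x = 0 then 1 else 0 := by
    intro x i
    unfold W
    have : T s (.inr c) (.inr d) (.inl (x, i)) ↔ x = 0 := ⟨fun h => h.2, fun h => ⟨hcd, h⟩⟩
    simp only [this]
  have h2 : ∀ e : Bool, W s (.inr c) (.inr d) (.inr e) = 0 := by
    intro e
    unfold W
    have : ¬ T s (.inr c) (.inr d) (.inr e) := id
    simp only [this, if_false]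
  simp only [h1, h2, Finset.sum_const_zero, add_zero, Finset.sum_const, Finset.card_univ, ZMod.card,
    smul_eq_mul]
  rw [← Finset.mul_sum, Finset.sum_ite_eq' Finset.univ (0 : ZMod n)]
  simp

/-- package F -/
theorem t_F : S_F := by
  classical
  intro v hv
  obtain ⟨m, rfl⟩ : ∃ m, v = 6 * m + 5 := ⟨v / 6, by omega⟩
  set n := 2 * m + 1 with hn
  have hn0 : NeZero n := ⟨by omega⟩
  -- the half
  obtain ⟨h, hh⟩ : ∃ h : ZMod n, 2 * h = 1 := by
    refine ⟨((m + 1 : ℕ) : ZMod n), ?_⟩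
    have h1 : ((n : ℕ) : ZMod n) = 0 := ZMod.natCast_self n
    have h2 : ((2 * (m + 1) : ℕ) : ZMod n) = ((n + 1 : ℕ) : ZMod n) := by
      congr 1
    push_cast at h2 ⊢
    rw [h2, h1, zero_add]
  have hneg : ∀ x : ZMod n, x ≠ 0 → -x ≠ x := by
    intro x hx h1
    apply hx
    linear_combination (-x) * hh - h * h1
  -- the sign
  obtain ⟨s, hs⟩ : ∃ s : ZMod n → Bool, ∀ x : ZMod n, x ≠ 0 → s (-x) = !(s x) := by
    refine ⟨fun x => decide (x.val < (-x).val), ?_⟩
    intro x hx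
    have h1 : (-x).val ≠ x.val := fun h => hneg x hx (ZMod.val_injective n h)
    simp only [neg_neg]
    rcases lt_or_gt_of_ne h1 with h2 | h2
    · rw [decide_eq_true h2, decide_eq_false (by omega)]
      rfl
    · rw [decide_eq_true h2, decide_eq_false (by omega)]
      rfl
  have hcard : Fintype.card ((ZMod n × ZMod 3) ⊕ Bool) = 6 * m + 5 := by
    rw [Fintype.card_sum, Fintype.card_prod, ZMod.card, ZMod.card, Fintype.card_bool]
    omega
  let e : Fin (6 * m + 5) ≃ (ZMod n × ZMod 3) ⊕ Bool := (Fintype.equivFinOfCardEq hcard).symm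
  refine ⟨fun x y z => W s (e x) (e y) (e z), e.symm (.inr false), e.symm (.inr true), ?_, ⟨?_, ?_, ?_⟩, ?_⟩
  · intro h1
    have := e.symm.injective h1
    simp at this
  · intro x y z
    have h1 : T s (e x) (e y) (e z) ↔ T s (e y) (e x) (e z) := ⟨T_swap s, T_swap s⟩
    unfold W
    simp only [h1]
  · intro x y z
    have h1 : T s (e x) (e y) (e z) ↔ T s (e x) (e z) (e y) := ⟨T_swap' s, T_swap' s⟩
    unfold W
    simp only [h1]
  · intro x y
    have h1 := T_self s (e x) (e y) hneg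
    unfold W
    simp only [h1, if_false]
  · intro x y hxy
    have hxy' : e x ≠ e y := fun h => hxy (e.injective h)
    rw [e.sum_comp (fun z => W s (e x) (e y) z)]
    by_cases hne : (∃ c, e x = .inr c) ∧ ∃ c, e y = .inr c
    · obtain ⟨⟨c, hc⟩, ⟨d, hd⟩⟩ := hne
      have hcd : c ≠ d := by
        rintro rfl
        exact hxy' (hc.trans hd.symm)
      rw [hc, hd, W_sum_three s c d hcd, if_pos]
      cases c <;> cases d
      · exact absurd rfl hcd
      · left
        constructor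
        · rw [Equiv.eq_symm_apply, hc]
        · rw [Equiv.eq_symm_apply, hd]
      · right
        constructor
        · rw [Equiv.eq_symm_apply, hc]
        · rw [Equiv.eq_symm_apply, hd]
      · exact absurd rfl hcd
    · rw [W_sum_one s h hh hs _ _ hxy' hne, if_neg]
      rintro (⟨rfl, rfl⟩ | ⟨rfl, rfl⟩)
      · exact hne ⟨⟨false, by simp⟩, ⟨true, by simp⟩⟩
      · exact hne ⟨⟨true, by simp⟩, ⟨false, by simp⟩⟩

end Pool.Agent.U337.VS
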